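import Pool.Agent.Helper501.Bpa.Main

/-!
Every equational axiomatization of bisimilarity over BPA with deadlock and binary Kleene star
contains infinitely many equations in two or more variables. All definitions used in the statement
are in `Pool.Agent.Helper501.Bpa.Defs`.
-/

namespace Pool.Agent.Results.MP_f6b51f_lc.TwoVariableEquations

open Pool.Agent.Helper501.Bpa

/-- Sanity check: equational axiomatizations exist. -/
theorem exists_axiomatization (A : Type*) : ∃ E : Set (Term (A ⊕ ℕ) × Term (A ⊕ ℕ)), IsAxiomatization E :=
  ⟨_, axiomatization_valid A⟩

/-- For every nonempty set `A` of actions, every equational axiomatization of bisimilarity contains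
infinitely many equations in which at least two distinct variables occur. -/
theorem result (A : Type*) [Nonempty A] (E : Set (Term (A ⊕ ℕ) × Term (A ⊕ ℕ))) (hE : IsAxiomatization E) :
    {e ∈ E | ∃ x y : ℕ, x ≠ y ∧ VarIn x e ∧ VarIn y e}.Infinite :=
  main E hE

end Pool.Agent.Results.MP_f6b51f_lc.TwoVariableEquations
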